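import Pool.Agent.H42.UP.Main

/-!
# Obstacles for universality of planar graphs can be exponentially large

There is a constant `c > 1` such that for all large `k` some inclusion-minimal configuration that is
universal for the `k`-vertex planar graphs has at least `c ^ k` points. In particular no polynomial
bounds the size of such configurations.
-/

namespace Pool.Agent.Results.MP_87448f_co.ExponentialObstacles

open Pool.Agent.H42.UP Filter Topology

theorem result : ∃ c : ℝ, 1 < c ∧ ∃ k₀ : ℕ, ∀ k ≥ k₀, ∃ S : Finset (ℝ × ℝ),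
    IsObstacle k S ∧ c ^ k ≤ (S.card : ℝ) := by
  -- the base
  set c : ℝ := (2 : ℝ) ^ ((1 : ℝ) / 4440) with hc
  have hc1 : 1 < c := Real.one_lt_rpow (by norm_num) (by norm_num)
  have hc4440 : c ^ 4440 = 2 := by
    rw [hc, ← Real.rpow_natCast, ← Real.rpow_mul (by norm_num)]; norm_num
  set d : ℝ := c ^ 1110 with hd
  have hd4 : d ^ 4 = 2 := by rw [hd, ← pow_mul]; exact hc4440
  have hd1 : 1 < d := one_lt_pow₀ hc1 (by norm_num)
  set r : ℝ := d ^ 3 with hr
  have hr1 : 1 < r := one_lt_pow₀ hd1 (by norm_num)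
  have hrd : r * d = 2 := by rw [hr, ← hd4]; ring
  clear_value c
  set B : ℝ := 2 ^ 37 * c ^ 1221 * 63 ^ 3 with hB
  have hB0 : 0 < B := by positivity
  have hev : ∀ᶠ n : ℕ in atTop, (n : ℝ) ^ 3 / r ^ n < 1 / B :=
    (tendsto_pow_const_div_const_pow_of_one_lt 3 hr1).eventually (gt_mem_nhds (by positivity))
  obtain ⟨L₀, hL₀⟩ := eventually_atTop.1 hev
  refine ⟨c, hc1, 30 * L₀ + 63, fun k hk => ?_⟩
  set L := (k - 3) / 30 with hL
  have h1 : 30 * L + 3 ≤ k := by omega
  have h2 : k ≤ 30 * L + 33 := by omega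
  have h3 : L₀ ≤ L := by omega
  have h4 : 0 < L := by omega
  obtain ⟨T, hT, hcount⟩ := exists_large h4 h1
  refine ⟨T, hT, ?_⟩
  by_contra hcon
  push Not at hcon
  have hck1 : 1 ≤ c ^ k := one_le_pow₀ hc1.le
  have hT1 : ((T.card : ℝ) + 1) ≤ 2 * c ^ k := by linarith
  have hcount' : (2 : ℝ) ^ L ≤ ((T.card : ℝ) + 1) ^ 37 * (k : ℝ) ^ 3 := by
    exact_mod_cast hcount
  have hk63 : (k : ℝ) ≤ 63 * (L : ℝ) := by
    have : k ≤ 63 * L := by omega
    exact_mod_cast this
  have hck : c ^ k ≤ c ^ (30 * L + 33) := pow_le_pow_right₀ hc1.le h2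
  have hd0 : 0 < d := by linarith
  have hr0 : 0 < r := by linarith
  have e1 : (c ^ (30 * L + 33)) ^ 37 = d ^ L * c ^ 1221 := by
    rw [hd, ← pow_mul, ← pow_mul, ← pow_add]
    congr 1
    ring
  have hle : ((T.card : ℝ) + 1) ^ 37 * (k : ℝ) ^ 3 ≤ B * (L : ℝ) ^ 3 * d ^ L := by
    calc ((T.card : ℝ) + 1) ^ 37 * (k : ℝ) ^ 3
        ≤ (2 * c ^ (30 * L + 33)) ^ 37 * (63 * (L : ℝ)) ^ 3 := by
          apply mul_le_mul
          · exact pow_le_pow_left₀ (by positivity) (hT1.trans (by linarith)) 37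
          · exact pow_le_pow_left₀ (by positivity) hk63 3
          · positivity
          · positivity
      _ = B * (L : ℝ) ^ 3 * d ^ L := by
          rw [mul_pow, e1, hB]; ring
  have hlt : B * (L : ℝ) ^ 3 < r ^ L := by
    have := hL₀ L h3
    rw [div_lt_div_iff₀ (by positivity) hB0] at this
    linarith
  have h2L : (2 : ℝ) ^ L = r ^ L * d ^ L := by rw [← mul_pow, hrd]
  have hdL : 0 < d ^ L := by positivity
  have := mul_lt_mul_of_pos_right hlt hdL
  linarith

/-- No polynomial bounds the size of obstacles. -/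
theorem no_polynomial_bound (p : Polynomial ℝ) : ∃ k ≥ 1, ∃ S : Finset (ℝ × ℝ),
    IsObstacle k S ∧ p.eval (k : ℝ) < (S.card : ℝ) := by
  obtain ⟨c, hc1, k₀, h⟩ := result
  have hlog : 0 < Real.log c := Real.log_pos hc1
  have ht := (Polynomial.tendsto_div_exp_atTop
    (p.comp (Polynomial.C (Real.log c)⁻¹ * Polynomial.X))).comp
    ((tendsto_natCast_atTop_atTop (R := ℝ)).atTop_mul_const hlog)
  have hev := ht.eventually (gt_mem_nhds (zero_lt_one))
  obtain ⟨k₁, hk₁⟩ := eventually_atTop.1 hev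
  refine ⟨max (max k₀ k₁) 1, le_max_right _ _, ?_⟩
  obtain ⟨S, hS, hcard⟩ := h (max (max k₀ k₁) 1) ((le_max_left _ _).trans (le_max_left _ _))
  refine ⟨S, hS, lt_of_lt_of_le ?_ hcard⟩
  have h1 := hk₁ (max (max k₀ k₁) 1) ((le_max_right _ _).trans (le_max_left _ _))
  set k := max (max k₀ k₁) 1
  simp only [Function.comp, Polynomial.eval_comp, Polynomial.eval_mul, Polynomial.eval_C,
    Polynomial.eval_X] at h1
  have e1 : (Real.log c)⁻¹ * ((k : ℝ) * Real.log c) = k := by field_simp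
  have e2 : Real.exp ((k : ℝ) * Real.log c) = c ^ k := by
    rw [Real.exp_nat_mul, Real.exp_log (by linarith)]
  rw [e1, e2, div_lt_one (by positivity)] at h1
  exact h1

end Pool.Agent.Results.MP_87448f_co.ExponentialObstacles
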